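import Pool.Agent.Helper76_SBG.Lat

/-!
LA0: the lattice inequality for `l1 = 0`.
-/

namespace Pool.Agent.SBG.H89

open Pool.Agent.SBG Pool.Agent.SBG.H76

theorem la0 (h1 : StrStmt) (h2 : Wg0Stmt) : La0Stmt := by
  classical
  intro k A
  refine ⟨(19 * k + 4).factorial * (A + 1) ^ (19 * k + 3) * A, ?_⟩
  intro n hn X hX hiso D hD hLam
  have hiso' : ∀ x ∈ X, ∀ y ∈ X, lz 1 0 (pv x) (pv y) = 0 := by
    intro x hx y hy
    have h : bf0 (pv x) (pv y) = 0 := hiso x hx y hy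
    rw [lz, h]; ring
  have hz : ∀ x ∈ LM (HX X), ∀ y ∈ LM (HX X), lz 1 0 x y = 0 := by
    rw [LM_HX]
    apply lz_closure
    rintro _ ⟨x, hx, rfl⟩ _ ⟨y, hy, rfl⟩
    exact hiso' x hx y hy
  have hI := iso_LQ 1 0 (LM (HX X)) hz
  have hI' : ∀ x ∈ LQ (LM (HX X)), ∀ y ∈ LQ (LM (HX X)), bf0 x y = 0 := by
    intro x hx y hy
    have h := hI x hx y hy
    simpa using h
  obtain ⟨I, hIc, hIi, hIw⟩ := (h2 k (LQ (LM (HX X)))).1 hI'
  have hb : ∀ x ∈ X.image (ph 1 0), (∀ c, |x.1 c| ≤ ((A * n ^ (wtI c) : ℕ) : ℤ)) ∧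
      |x.2| ≤ ((A * n ^ 5 : ℕ) : ℤ) := by
    intro x hx
    obtain ⟨y, hy, rfl⟩ := Finset.mem_image.mp hx
    constructor
    · intro c
      have := hX y hy (Sum.inl c)
      push_cast
      exact this
    · have e0 : |pz y 0| ≤ (A : ℤ) * (n : ℤ) ^ 5 := hX y hy (Sum.inr 0)
      have e1 : (ph 1 0 y).2 = pz y 0 := by simp [ph]
      rw [e1]
      push_cast
      exact e0
  have hcl : ∀ t : ℤ, ((0 : Ix k → ℤ), t) ∈
      AddSubgroup.closure ((X.image (ph 1 0) : Finset _) : Set ((Ix k → ℤ) × ℤ)) ↔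
      (D : ℤ) ∣ t := by
    intro t
    rw [← hLam t, Finset.coe_image, mem_closure_iff 1 0 X hiso']
    constructor
    · rintro ⟨g, hg, e⟩
      have e1 : pv g.x = 0 := congrArg Prod.fst e
      have e2 : 1 * pz g.x 0 + 0 * pz g.x 1 = t := congrArg Prod.snd e
      refine ⟨pz g.x, ?_, by rw [← e2]; ring⟩
      rw [mem_Lam_iff, ← eq_zin_of_pv e1, ← Gp.eta0 (HX_m hg)]
      exact hg
    · rintro ⟨z, hz', e⟩
      refine ⟨⟨0, zin z⟩, hz', Prod.ext rfl ?_⟩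
      rw [← e]
      simp [ph]
  have hL : LM (HX X) = AddSubgroup.closure
      (Prod.fst '' ((X.image (ph 1 0) : Finset _) : Set ((Ix k → ℤ) × ℤ))) := by
    rw [LM_HX, Finset.coe_image, Set.image_image]
    rfl
  have S := h1 (Ix k) (X.image (ph 1 0)) (fun c => A * n ^ (wtI c))
    (A * n ^ 5) hb D hD hcl (LM (HX X)) hL I ∅ hIc hIi ⊥ 1 (fun x _ c _ _ => by simp)
  obtain ⟨ρ, hρ⟩ : ∃ ρ : ℕ, ρ = (LM (HX X)).relIndex (sat (LM (HX X))) := ⟨_, rfl⟩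
  rw [← hρ] at S ⊢
  refine ⟨S.1, ?_⟩
  have g1 := S.2
  rw [one_pow, mul_one] at g1
  obtain ⟨K, hK⟩ : ∃ K : ℕ, K = (19 * k + 4).factorial * (A + 1) ^ (19 * k + 3) := ⟨_, rfl⟩
  rw [← hK]
  have pb : (I.card + 1).factorial * (∏ c ∈ I, A * n ^ (wtI c)) ≤
      K * n ^ (∑ c ∈ I, wtI c) := by rw [hK]; exact prod_bound A n I
  calc D * ρ ≤ (I.card + 1).factorial * (∏ c ∈ I, A * n ^ (wtI c)) * (A * n ^ 5) := g1
    _ ≤ K * n ^ (∑ c ∈ I, wtI c) * (A * n ^ 5) := Nat.mul_le_mul_right _ pb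
    _ ≤ K * n ^ (36 * k + 6) * (A * n ^ 5) :=
        Nat.mul_le_mul_right _ (Nat.mul_le_mul_left _ (Nat.pow_le_pow_right hn hIw))
    _ = K * A * n ^ (36 * k + 6 + 5) := by rw [pow_add _ _ 5]; ring
    _ = K * A * n ^ (36 * k + 11) := by
        have e : 36 * k + 6 + 5 = 36 * k + 11 := by ring
        rw [e]

end Pool.Agent.SBG.H89
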